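import Pool.Agent.T9h20.TG.Spec

/-! Project TG: several variables (helper73). -/

set_option autoImplicit false

namespace Pool.Agent.T9h73.TG

open Pool.Agent.T9h20.TG

theorem mv_fin (h : SOne) (ι : Type) [Fintype ι] (d : ℕ) (ρ : ℝ) (hρ : 0 < ρ) (hρ1 : ρ ≤ 1) :
    ∀ (n : ℕ) (P : ι → MvPolynomial (Fin n) ℝ) (v : ι → Fin n →₀ ℕ),
      (∀ i s, (P i).degreeOf s ≤ d) →
      ∃ z : Fin n → ℝ, (∀ s, 1 ≤ z s ∧ z s ≤ 1 + ρ) ∧ ∀ i, |(P i).coeff (v i)| ≤
        ((d + 1) * (3 * (Fintype.card ι * d + 1) / ρ) ^ d) ^ n * |MvPolynomial.eval z (P i)| := by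
  intro n
  induction n with
  | zero =>
    intro P v _
    refine ⟨fun _ => 1, fun s => s.elim0, fun i => ?_⟩
    rw [pow_zero, one_mul]
    have h1 : v i = 0 := Subsingleton.elim _ _
    have h2 := MvPolynomial.eq_C_of_isEmpty (P i)
    rw [h1]
    conv_rhs => rw [h2, MvPolynomial.eval_C]
  | succ n ih =>
    intro P v hd
    obtain ⟨z', hz', hc⟩ := ih (fun i => (MvPolynomial.finSuccEquiv ℝ n (P i)).coeff (v i 0))
      (fun i => (v i).tail) (fun i s => (MvPolynomial.degreeOf_coeff_finSuccEquiv _ _ _).trans (hd i _))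
    obtain ⟨z0, h1, h2, h3⟩ := h ι
      (fun i => (MvPolynomial.finSuccEquiv ℝ n (P i)).map (MvPolynomial.eval z')) (fun i => v i 0) d ρ
      hρ hρ1 (fun i => (Polynomial.natDegree_map_le).trans (by
        rw [MvPolynomial.natDegree_finSuccEquiv]; exact hd i 0))
    refine ⟨Fin.cons z0 z', fun s => ?_, fun i => ?_⟩
    · refine Fin.cases ?_ (fun j => ?_) s
      · simpa using ⟨h1, h2⟩
      · simpa using hz' j
    · have e1 := hc i
      rw [MvPolynomial.finSuccEquiv_coeff_coeff, Finsupp.cons_tail] at e1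
      have e2 := h3 i
      rw [Polynomial.coeff_map, ← MvPolynomial.eval_eq_eval_mv_eval'] at e2
      refine e1.trans ?_
      rw [pow_succ, mul_assoc]
      exact mul_le_mul_of_nonneg_left e2 (by positivity)

theorem sMv : SOne → SMv := by
  intro h ι σ _ _ P v d ρ hρ hρ1 hd
  classical
  let e : σ ≃ Fin (Fintype.card σ) := Fintype.equivFin σ
  obtain ⟨z, hz, hc⟩ := mv_fin h ι d ρ hρ hρ1 (Fintype.card σ)
    (fun i => MvPolynomial.rename e (P i)) (fun i => (v i).mapDomain e) (fun i s => by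
      obtain ⟨t, rfl⟩ := e.surjective s
      rw [MvPolynomial.degreeOf_rename_of_injective e.injective]
      exact hd i t)
  refine ⟨z ∘ e, fun s => hz (e s), fun i => ?_⟩
  have := hc i
  rwa [MvPolynomial.coeff_rename_mapDomain _ e.injective, MvPolynomial.eval_rename] at this

end Pool.Agent.T9h73.TG
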