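import Pool.Agent.T9h20.TG.Spec2

/-! Project TG: several variables (helper73). -/

set_option autoImplicit false

namespace Pool.Agent.T9h73.TG

open Pool.Agent.T9h20.TG

theorem mv_finG (h : SOneG) (ι : Type) [Fintype ι] (d K : ℕ) (ρ : ℝ) (hρ : 0 < ρ) (hρ1 : ρ ≤ 1)
    (hK : Fintype.card ι ≤ K) :
    ∀ (n : ℕ) (P : ι → MvPolynomial (Fin n) ℝ) (v : ι → Fin n →₀ ℕ),
      (∀ i s, (P i).degreeOf s ≤ d) →
      ∃ l : Fin n → ℕ, (∀ s, l s ≤ K * d) ∧ ∀ i, |(P i).coeff (v i)| ≤
        ((d + 1) * (3 * (K * d + 1) / ρ) ^ d) ^ n *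
          |MvPolynomial.eval (fun s => 1 + ρ * l s / (K * d + 1)) (P i)| := by
  intro n
  induction n with
  | zero =>
    intro P v _
    refine ⟨fun _ => 0, fun s => s.elim0, fun i => ?_⟩
    rw [pow_zero, one_mul]
    have h1 : v i = 0 := Subsingleton.elim _ _
    have h2 := MvPolynomial.eq_C_of_isEmpty (P i)
    rw [h1]
    conv_rhs => rw [h2, MvPolynomial.eval_C]
  | succ n ih =>
    intro P v hd
    obtain ⟨l', hl', hc⟩ := ih (fun i => (MvPolynomial.finSuccEquiv ℝ n (P i)).coeff (v i 0))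
      (fun i => (v i).tail) (fun i s => (MvPolynomial.degreeOf_coeff_finSuccEquiv _ _ _).trans (hd i _))
    obtain ⟨l0, h1, h3⟩ := h ι
      (fun i => (MvPolynomial.finSuccEquiv ℝ n (P i)).map
        (MvPolynomial.eval fun s => 1 + ρ * l' s / (K * d + 1))) (fun i => v i 0) d K ρ
      hρ hρ1 hK (fun i => (Polynomial.natDegree_map_le).trans (by
        rw [MvPolynomial.natDegree_finSuccEquiv]; exact hd i 0))
    refine ⟨Fin.cons l0 l', fun s => ?_, fun i => ?_⟩
    · refine Fin.cases ?_ (fun j => ?_) s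
      · simpa using h1
      · simpa using hl' j
    · have e0 : (fun s : Fin (n + 1) => 1 + ρ * ((Fin.cons l0 l' : Fin (n + 1) → ℕ) s : ℝ) / (K * d + 1)) =
          Fin.cons (1 + ρ * (l0 : ℝ) / (K * d + 1)) (fun s => 1 + ρ * (l' s : ℝ) / (K * d + 1)) := by
        funext s
        refine Fin.cases ?_ (fun j => ?_) s <;> simp
      rw [e0]
      have e1 := hc i
      rw [MvPolynomial.finSuccEquiv_coeff_coeff, Finsupp.cons_tail] at e1
      have e2 := h3 i
      rw [Polynomial.coeff_map, ← MvPolynomial.eval_eq_eval_mv_eval'] at e2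
      refine e1.trans ?_
      rw [pow_succ, mul_assoc]
      exact mul_le_mul_of_nonneg_left e2 (by positivity)

theorem sMvG : SOneG → SMvG := by
  intro h ι σ _ _ P v d K ρ hρ hρ1 hK hd
  classical
  let e : σ ≃ Fin (Fintype.card σ) := Fintype.equivFin σ
  obtain ⟨z, hz, hc⟩ := mv_finG h ι d K ρ hρ hρ1 hK (Fintype.card σ)
    (fun i => MvPolynomial.rename e (P i)) (fun i => (v i).mapDomain e) (fun i s => by
      obtain ⟨t, rfl⟩ := e.surjective s
      rw [MvPolynomial.degreeOf_rename_of_injective e.injective]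
      exact hd i t)
  refine ⟨z ∘ e, fun s => hz (e s), fun i => ?_⟩
  have := hc i
  rw [MvPolynomial.coeff_rename_mapDomain _ e.injective, MvPolynomial.eval_rename] at this
  exact this

end Pool.Agent.T9h73.TG
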