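import Pool.Agent.T9h20.TG.Spec

/-! Project TG: one variable (helper73). -/

set_option autoImplicit false

namespace Pool.Agent.T9h73.TG

open Pool.Agent.T9h20.TG

theorem sOne : SLag → SOne := by
  classical
  intro hL ι _ p v d ρ hρ hρ1 hd
  set m : ℕ := Fintype.card ι * d + 1 with hm
  have hm0 : (0 : ℝ) < m := by rw [hm]; positivity
  have hmc : ((m : ℕ) : ℝ) = Fintype.card ι * d + 1 := by rw [hm]; push_cast; ring
  set x : ℕ → ℝ := fun l => 1 + ρ * l / m with hx
  set C : ℝ := (d + 1) * (3 * (Fintype.card ι * d + 1) / ρ) ^ d with hC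
  have hC0 : 0 < C := by rw [hC]; positivity
  have hx1 : ∀ l, 1 ≤ x l := fun l => by
    have : 0 ≤ ρ * l / m := by positivity
    simp only [hx]; linarith
  have hx2 : ∀ l, l < m → x l ≤ 1 + ρ := fun l hl => by
    have h1 : (l : ℝ) ≤ m := by exact_mod_cast hl.le
    have : ρ * l / m ≤ ρ := by
      rw [div_le_iff₀ hm0]; exact mul_le_mul_of_nonneg_left h1 hρ.le
    simp only [hx]; linarith
  by_contra hcon
  have hbad : ∀ l, ∃ i, l < m → C * |(p i).eval (x l)| < |(p i).coeff (v i)| := by
    intro l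
    by_cases hl : l < m
    · by_contra h1
      push Not at h1
      apply hcon
      refine ⟨x l, hx1 l, hx2 l hl, fun i => ?_⟩
      exact (h1 i).2
    · by_contra h1
      push Not at h1
      rcases isEmpty_or_nonempty ι with h2 | h2
      · exact hcon ⟨x 0, hx1 0, hx2 0 (by omega), fun i => (h2.false i).elim⟩
      · exact hl (h1 h2.some).1
  choose f hf using hbad
  have hpig := Finset.exists_lt_card_fiber_of_mul_lt_card_of_maps_to (s := Finset.range m)
    (t := (Finset.univ : Finset ι)) (f := f) (n := d) (fun _ _ => Finset.mem_univ _)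
    (by rw [Finset.card_univ, Finset.card_range, hm]; omega)
  obtain ⟨i, -, hi⟩ := hpig
  obtain ⟨L, hLs, hLc⟩ := Finset.exists_subset_card_eq (n := d + 1) hi
  have hLmem : ∀ l ∈ L, l < m ∧ f l = i := fun l hl => by
    have := Finset.mem_filter.1 (hLs hl)
    exact ⟨Finset.mem_range.1 this.1, this.2⟩
  have hLne : L.Nonempty := by rw [← Finset.card_pos, hLc]; omega
  obtain ⟨l0, hl0, hmax⟩ := Finset.exists_max_image L (fun l => |(p i).eval (x l)|) hLne
  have hsep : ∀ l l' : ℕ, l ≠ l' → ρ / m ≤ |x l - x l'| := by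
    intro l l' hne
    have h1 : x l - x l' = ρ / m * ((l : ℝ) - l') := by
      simp only [hx]; field_simp; ring
    rw [h1, abs_mul, abs_of_pos (div_pos hρ hm0)]
    have h2 : (1 : ℝ) ≤ |(l : ℝ) - l'| := by
      have h3 : (1 : ℤ) ≤ |(l : ℤ) - l'| := Int.one_le_abs (by omega)
      exact_mod_cast h3
    nlinarith [div_pos hρ hm0]
  have hinj : Set.InjOn x L := by
    intro l _ l' _ h
    by_contra hne
    have := hsep l l' hne
    rw [h, sub_self, abs_zero] at this
    exact absurd this (not_le.2 (div_pos hρ hm0))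
  have h1 := hL (p i) d (L.image x) (ρ / m) (|(p i).eval (x l0)|) (div_pos hρ hm0) (hd i)
    (by rw [Finset.card_image_of_injOn hinj, hLc])
    (fun s hs => by
      obtain ⟨l, hl, rfl⟩ := Finset.mem_image.1 hs
      have := hx1 l
      have := hx2 l (hLmem l hl).1
      constructor <;> linarith)
    (fun s hs s' hs' hne => by
      obtain ⟨l, hl, rfl⟩ := Finset.mem_image.1 hs
      obtain ⟨l', hl', rfl⟩ := Finset.mem_image.1 hs'
      exact hsep l l' (fun h => hne (by rw [h])))
    (fun s hs => by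
      obtain ⟨l, hl, rfl⟩ := Finset.mem_image.1 hs
      exact hmax l hl) (v i)
  have h2 := hf l0 (hLmem l0 hl0).1
  rw [(hLmem l0 hl0).2] at h2
  have h3 : ((d : ℝ) + 1) * (3 / (ρ / m)) ^ d = C := by
    rw [hC, ← hmc]
    congr 2
    field_simp
  rw [h3] at h1
  linarith

end Pool.Agent.T9h73.TG
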